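import Pool.Agent.MNT.StmtsT

set_option autoImplicit false

/-!
# MNT, row IDJ (helper44): the sum of `l - J`
-/

namespace Pool.Agent.MNT.H44

open Pool.Agent.MNT

open scoped Classical

theorem idj (hH : HedStmt) : IdjStmt := by
  intro V _ _ _ T G l s r hl hG hR
  obtain ⟨h, hh'⟩ : ∃ h : V → ℝ, h = hh l s r := ⟨_, rfl⟩
  have hs0 : ∀ v, 0 ≤ s v := fun v => by
    by_cases hv : G v
    · exact (hR.s_grd v hv).ge
    · exact (hR.s_pos v hv).le
  have hr0 : ∀ c, c ≠ ⊤ → 0 ≤ r c := fun c hc => by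
    by_cases hv : G (T.par c)
    · exact (hR.r_grd c hc hv).ge
    · exact (hR.r_pos c hc hv).le
  have hGh : ∀ v, G v → h v = 0 := fun v hv => by
    rw [hh', hh, hR.s_grd v hv, zero_mul, zero_div]
  have key : ∀ c, c ≠ ⊤ → l c - JJ l s r c =
      2 * h c * (1 - 2 * h c * (l c + r c)⁻¹) +
        2 * h (T.par c) * (1 - 2 * h (T.par c) * (l c + s c)⁻¹) := by
    intro c hc
    have h1 := (hH V T G l s r hl hG hR c hc).1
    have hlc := hl c hc
    have hsc := hs0 c
    have hrc := hr0 c hc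
    have e1 : s c + l c + r c ≠ 0 := by positivity
    have e2 : l c + r c ≠ 0 := by positivity
    have e3 : l c + s c ≠ 0 := by positivity
    have e4 : s c + l c ≠ 0 := by positivity
    rw [hh', h1]
    unfold hh JJ
    field_simp
    ring
  rw [Finset.sum_congr rfl fun c hc => key c (Finset.mem_filter.1 hc).2, Finset.sum_add_distrib]
  have s1 : ∑ c with c ≠ ⊤, 2 * h c * (1 - 2 * h c * (l c + r c)⁻¹) =
      ∑ v with ¬ G v, 2 * h v * (1 - 2 * h v * (l v + r v)⁻¹) := by
    symm
    refine Finset.sum_subset_zero_on_sdiff ?_ ?_ (fun _ _ => rfl)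
    · intro v hv
      rw [Finset.mem_filter] at hv ⊢
      refine ⟨hv.1, ?_⟩
      rintro rfl
      exact hv.2 hG
    · intro v hv
      rw [Finset.mem_sdiff, Finset.mem_filter, Finset.mem_filter] at hv
      have : G v := by
        by_contra hcon
        exact hv.2 ⟨Finset.mem_univ _, hcon⟩
      rw [hGh v this]
      ring
  have s2 : ∑ c with c ≠ ⊤, 2 * h (T.par c) * (1 - 2 * h (T.par c) * (l c + s c)⁻¹) =
      ∑ v with ¬ G v, ∑ c ∈ T.kids v, 2 * h v * (1 - 2 * h v * (l c + s c)⁻¹) := by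
    have s3 : ∑ c with c ≠ ⊤, 2 * h (T.par c) * (1 - 2 * h (T.par c) * (l c + s c)⁻¹) =
        ∑ v, ∑ c ∈ T.kids v, 2 * h v * (1 - 2 * h v * (l c + s c)⁻¹) := by
      rw [← Finset.sum_fiberwise_of_maps_to (t := Finset.univ) (g := T.par)
        (fun c _ => Finset.mem_univ _)]
      refine Finset.sum_congr rfl fun v _ => ?_
      rw [Finset.filter_filter]
      refine Finset.sum_congr rfl fun c hc => ?_
      rw [(Finset.mem_filter.1 hc).2.2]
    rw [s3]
    symm
    refine Finset.sum_subset (Finset.filter_subset _ _) ?_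
    intro v _ hv
    have : G v := by
      by_contra hcon
      exact hv (Finset.mem_filter.2 ⟨Finset.mem_univ _, hcon⟩)
    refine Finset.sum_eq_zero fun c _ => ?_
    rw [hGh v this]
    ring
  rw [s1, s2, ← Finset.sum_add_distrib, Finset.mul_sum]
  refine Finset.sum_congr rfl fun v hv => ?_
  have hv' : ¬ G v := (Finset.mem_filter.1 hv).2
  have hvt : v ≠ ⊤ := by
    rintro rfl
    exact hv' hG
  have hlv := hl v hvt
  have hsv := hR.s_pos v hv'
  have hrv := hr0 v hvt
  have t1 : ∑ c ∈ T.kids v, 2 * h v * (1 - 2 * h v * (l c + s c)⁻¹) =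
      2 * h v * ((T.kids v).card - 2 * h v * (s v)⁻¹) := by
    rw [hR.s_eq v hv', ← Finset.mul_sum, Finset.sum_sub_distrib, ← Finset.mul_sum,
      Finset.sum_const, nsmul_eq_mul, mul_one]
  have t2 : 2 * h v * ((l v + r v)⁻¹ + (s v)⁻¹) = 2 := by
    rw [hh']
    unfold hh
    have e1 : s v + l v + r v ≠ 0 := by positivity
    have e2 : l v + r v ≠ 0 := by positivity
    field_simp
    ring
  rw [t1]
  change _ = 2 * (((T.kids v).card - 1) * hh l s r v)
  rw [← hh']
  linear_combination (-2 * h v) * t2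

end Pool.Agent.MNT.H44
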