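import Pool.Agent.MNT.StmtsT

set_option autoImplicit false

/-!
# MNT, row QED (helper44): completing the square on one edge
-/

namespace Pool.Agent.MNT.H44

open Pool.Agent.MNT

theorem Bc_pos (g : ℕ) : 0 < Bc g := by
  have hg : (0 : ℝ) ≤ g := Nat.cast_nonneg g
  have h : Bc g = (8 * (g : ℝ) ^ 3 + 16 * g ^ 2 + 4 * g + 8) / (4 * g + 7) := by
    unfold Bc kc
    field_simp
    ring
  rw [h]
  positivity

theorem w1_id (g a b : ℕ) : w1 g a b = (4 * (g : ℝ) + 8) *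
    (Bc g * ((a : ℝ) / (2 * g + 2) - b / (4 * g + 8)) ^ 2 -
      kc g * (1 - 2 * ((a : ℝ) / (2 * g + 2))) * ((a : ℝ) / (2 * g + 2) - b / (4 * g + 8)) +
      (kc g - (g + 1)) * ((a : ℝ) / (2 * g + 2) * (1 - a / (2 * g + 2)))) := by
  have hg : (0 : ℝ) ≤ g := Nat.cast_nonneg g
  have h1 : (2 * (g : ℝ) + 2) ≠ 0 := by positivity
  have h2 : (4 * (g : ℝ) + 8) ≠ 0 := by positivity
  have h3 : (4 * (g : ℝ) + 7) ≠ 0 := by positivity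
  unfold w1 w0 gam Bc kc
  field_simp
  ring

theorem qed : QedStmt := by
  intro g _ a b l D J hl hD
  have hg : (0 : ℝ) ≤ g := Nat.cast_nonneg g
  have hB := Bc_pos g
  have hm : (0 : ℝ) < 4 * (g : ℝ) + 8 := by positivity
  rw [w1_id]
  obtain ⟨α, hα⟩ : ∃ α : ℝ, α = (a : ℝ) / (2 * g + 2) := ⟨_, rfl⟩
  obtain ⟨τ, hτ⟩ : ∃ τ : ℝ, τ = α - (b : ℝ) / (4 * g + 8) := ⟨_, rfl⟩
  rw [← hα, ← hτ]
  obtain ⟨k, hk⟩ : ∃ k : ℝ, k = kc g := ⟨_, rfl⟩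
  obtain ⟨β, hβ⟩ : ∃ β : ℝ, β = Bc g := ⟨_, rfl⟩
  rw [← hk, ← hβ]
  rw [← hβ] at hB
  obtain ⟨A, hA⟩ : ∃ A : ℝ, A = 3 * (g : ℝ) := ⟨_, rfl⟩
  rw [← hA]
  -- the main inequality
  have h1 : (k * (1 - 2 * α) * l - A * D) ^ 2 / (4 * β * l) ≤
      (k ^ 2 * (1 - 2 * α) ^ 2 * l - 2 * k * A * (1 - 2 * α) * D + A ^ 2 * J / 3) / (4 * β) := by
    rw [div_le_div_iff₀ (by positivity) (by positivity)]
    have h2 : A ^ 2 * D ^ 2 ≤ A ^ 2 * (l * J / 3) := mul_le_mul_of_nonneg_left hD (sq_nonneg A)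
    have h3 := mul_le_mul_of_nonneg_left h2 (by positivity : (0 : ℝ) ≤ 4 * β)
    nlinarith [h3]
  have h4 : 0 ≤ β * l * τ ^ 2 - (k * (1 - 2 * α) * l - A * D) * τ +
      (k * (1 - 2 * α) * l - A * D) ^ 2 / (4 * β * l) := by
    have h5 : β * l * τ ^ 2 - (k * (1 - 2 * α) * l - A * D) * τ +
        (k * (1 - 2 * α) * l - A * D) ^ 2 / (4 * β * l) =
        (2 * β * l * τ - (k * (1 - 2 * α) * l - A * D)) ^ 2 / (4 * β * l) := by
      field_simp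
      ring
    rw [h5]
    positivity
  have h6 : (k - (g + 1)) * (α * (1 - α)) * l -
      (k ^ 2 * (1 - 2 * α) ^ 2 * l - 2 * k * A * (1 - 2 * α) * D + A ^ 2 * J / 3) / (4 * β) ≤
      l * (β * τ ^ 2 - k * (1 - 2 * α) * τ + (k - (g + 1)) * (α * (1 - α))) + A * τ * D := by
    nlinarith [h1, h4]
  calc (4 * (g : ℝ) + 8) * ((k - (g + 1)) * (α * (1 - α)) * l -
        (k ^ 2 * (1 - 2 * α) ^ 2 * l - 2 * k * A * (1 - 2 * α) * D + A ^ 2 * J / 3) / (4 * β))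
      ≤ (4 * (g : ℝ) + 8) * (l * (β * τ ^ 2 - k * (1 - 2 * α) * τ +
        (k - (g + 1)) * (α * (1 - α))) + A * τ * D) := mul_le_mul_of_nonneg_left h6 hm.le
    _ = l * ((4 * (g : ℝ) + 8) * (β * τ ^ 2 - k * (1 - 2 * α) * τ +
        (k - (g + 1)) * (α * (1 - α)))) + A * (4 * g + 8) * τ * D := by ring

end Pool.Agent.MNT.H44
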